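import Pool.Agent.Helper93.BPF.QLem

/-!
BPF: the master lemma `bordUp`.
-/

set_option autoImplicit false

namespace Pool.Agent.Helper93.BPF

open Pool.Agent.Helper79.BP
open scoped ContDiff

/-- The linear map `(y, t) ↦ Sum.elim y t`. -/
noncomputable def jn (κ : Type) [Fintype κ] : ((κ → ℝ) × ℝ) →L[ℝ] (κ ⊕ Unit → ℝ) :=
  LinearMap.toContinuousLinearMap
    { toFun := fun p => Sum.elim p.1 (fun _ => p.2)
      map_add' := by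
        intro p q
        funext i
        rcases i with i | i <;> rfl
      map_smul' := by
        intro c p
        funext i
        rcases i with i | i <;> rfl }

theorem jn_inl (κ : Type) [Fintype κ] (p : (κ → ℝ) × ℝ) (i : κ) : jn κ p (Sum.inl i) = p.1 i := rfl

theorem jn_inr (κ : Type) [Fintype κ] (p : (κ → ℝ) × ℝ) : jn κ p (Sum.inr ()) = p.2 := rfl

variable {G : Type} [Group G] {H : Type} [NormedAddCommGroup H] [NormedSpace ℝ H]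

/-- The action on `H × ℝ`, trivial on the second factor. -/
noncomputable def rhoR (ρ : G →* (H →L[ℝ] H)) : G →* (H × ℝ →L[ℝ] H × ℝ) where
  toFun g := (ρ g).prodMap (ContinuousLinearMap.id ℝ ℝ)
  map_one' := by
    ext p
    · simp
    · simp
    · simp
    · simp
  map_mul' := by
    intro g g'
    refine ContinuousLinearMap.ext fun p => ?_
    refine Prod.ext ?_ rfl
    show ρ (g * g') p.1 = ρ g (ρ g' p.1)
    rw [map_mul]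
    rfl

theorem rhoR_apply (ρ : G →* (H →L[ℝ] H)) (g : G) (p : H × ℝ) : rhoR ρ g p = (ρ g p.1, p.2) := rfl

variable [Fintype G] [FiniteDimensional ℝ H]

/-- `Psi` on `H × ℝ`, identity on the second factor. -/
noncomputable def PsiR (ρ : G →* (H →L[ℝ] H)) (p : H × ℝ) : Wx G H ⊕ Unit → ℝ := jn (Wx G H) (Psi ρ p.1, p.2)

theorem psiR_hasFDerivAt (ρ : G →* (H →L[ℝ] H)) (p : H × ℝ) :
    HasFDerivAt (PsiR ρ) ((jn (Wx G H)).comp ((fderiv ℝ (Psi ρ) p.1).prodMap (ContinuousLinearMap.id ℝ ℝ))) p := by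
  have h1 : HasFDerivAt (Psi ρ) (fderiv ℝ (Psi ρ) p.1) p.1 :=
    ((psi_smooth ρ).differentiable (by simp) p.1).hasFDerivAt
  have h2 : HasFDerivAt (fun p : H × ℝ => (Psi ρ p.1, p.2))
      ((fderiv ℝ (Psi ρ) p.1).prodMap (ContinuousLinearMap.id ℝ ℝ)) p :=
    HasFDerivAt.prodMap p h1 (hasFDerivAt_id p.2)
  exact (jn (Wx G H)).hasFDerivAt.comp p h2

theorem qm_psiR (ρ : G →* (H →L[ℝ] H)) : QM (rhoR ρ) (PsiR ρ) := by
  refine ⟨?_, ?_, ?_, ?_⟩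
  · exact (jn (Wx G H)).contDiff.comp (((psi_smooth ρ).comp contDiff_fst).prodMk contDiff_snd)
  · intro g p
    show jn (Wx G H) (Psi ρ (ρ g p.1), p.2) = jn (Wx G H) (Psi ρ p.1, p.2)
    rw [psi_inv]
  · rintro ⟨x, t⟩ hx ⟨v, s⟩ hv
    rw [(psiR_hasFDerivAt ρ (x, t)).fderiv] at hv
    have hv' : jn (Wx G H) (fderiv ℝ (Psi ρ) x v, s) = 0 := hv
    have h1 : fderiv ℝ (Psi ρ) x v = 0 := by
      funext i
      have := congrFun hv' (Sum.inl i)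
      exact this
    have h2 : s = 0 := congrFun hv' (Sum.inr ())
    have h3 : v = 0 := psi_imm ρ (fun g hg => hx g (by rw [rhoR_apply, hg])) v h1
    rw [h2, h3]
    rfl
  · rintro ⟨x, t⟩ U hU hx
    have h1 : ∀ g, ∃ (A : Set H) (B : Set ℝ), IsOpen A ∧ IsOpen B ∧ ρ g x ∈ A ∧ t ∈ B ∧ A ×ˢ B ⊆ U := by
      intro g
      have h2 : (ρ g x, t) ∈ U := hx g
      obtain ⟨A, B, hA, hB, h3, h4, h5⟩ := isOpen_prod_iff.1 hU _ _ h2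
      exact ⟨A, B, hA, hB, h3, h4, h5⟩
    choose A B hA hB h3 h4 h5 using h1
    obtain ⟨O, hO, hxO, hO2⟩ := psi_loc ρ x (⋃ g, A g) (isOpen_iUnion hA) (fun g => Set.mem_iUnion.2 ⟨g, h3 g⟩)
    refine ⟨{y | (fun i => y (Sum.inl i)) ∈ O ∧ y (Sum.inr ()) ∈ ⋂ g, B g}, ?_, ⟨hxO, ?_⟩, ?_⟩
    · refine IsOpen.inter (hO.preimage ?_) ((isOpen_iInter_of_finite hB).preimage ?_)
      · fun_prop
      · fun_prop
    · exact Set.mem_iInter.2 h4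
    · rintro ⟨z, s⟩ ⟨hz1, hz2⟩
      obtain ⟨g, hg⟩ := Set.mem_iUnion.1 (hO2 z hz1)
      exact h5 g ⟨hg, Set.mem_iInter.1 hz2 g⟩

variable {ι : Type} {V : Set (ι → ℝ)} {m : ℕ}

/-- MASTER LEMMA. An equivariant bordism upstairs. -/
theorem bordUp {ρ : G →* (H →L[ℝ] H)} {X₀ X₁ : Set H} {f₀ f₁ : H → (ι → ℝ)} (h₀ : UpData ρ V m X₀ f₀)
    (h₁ : UpData ρ V m X₁ f₁) (W : Set (H × ℝ)) (F : H × ℝ → (ι → ℝ)) (hW : SubE (m + 1) W)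
    (hst : ∀ g x t, (x, t) ∈ W → (ρ g x, t) ∈ W) (hfr : ∀ g x t, (x, t) ∈ W → ρ g x = x → g = 1)
    (hreg : ∀ x t, (x, t) ∈ W → t = 0 ∨ t = 1 → ∃ v : H × ℝ, TanE W (x, t) v ∧ v.2 ≠ 0)
    (hc : IsCompact {z ∈ W | 0 ≤ z.2 ∧ z.2 ≤ 1})
    (hF : ContinuousOn F {z ∈ W | 0 ≤ z.2 ∧ z.2 ≤ 1})
    (hFi : ∀ g x t, (x, t) ∈ W → 0 ≤ t → t ≤ 1 → F (ρ g x, t) = F (x, t))
    (hFV : ∀ x t, (x, t) ∈ W → 0 ≤ t → t ≤ 1 → F (x, t) ∈ V)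
    (hX₀ : ∀ x, x ∈ X₀ ↔ (x, 0) ∈ W) (hX₁ : ∀ x, x ∈ X₁ ↔ (x, 1) ∈ W)
    (hf₀ : ∀ x ∈ X₀, F (x, 0) = f₀ x) (hf₁ : ∀ x ∈ X₁, F (x, 1) = f₁ x) : Bord (Q h₀) (Q h₁) := by
  classical
  have hQ := qm_psiR ρ
  set X : Set (H × ℝ) := {z ∈ W | 0 ≤ z.2 ∧ z.2 ≤ 1} with hX
  have hXst : ∀ g, ∀ z ∈ X, rhoR ρ g z ∈ X := fun g z hz => ⟨hst g z.1 z.2 hz.1, hz.2⟩
  have hXfr : ∀ g, ∀ z ∈ X, rhoR ρ g z = z → g = 1 := by
    intro g z hz he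
    exact hfr g z.1 z.2 hz.1 (congrArg Prod.fst he)
  set F' : (Wx G H ⊕ Unit → ℝ) → (ι → ℝ) := fun y =>
    if h : ∃ z, z ∈ X ∧ PsiR ρ z = y then F h.choose else 0 with hF'
  have hF'v : ∀ z ∈ X, F' (PsiR ρ z) = F z := by
    intro z hz
    have h : ∃ z', z' ∈ X ∧ PsiR ρ z' = PsiR ρ z := ⟨z, hz, rfl⟩
    simp only [hF']
    rw [dif_pos h]
    obtain ⟨h1, h2⟩ := h.choose_spec
    obtain ⟨g, hg⟩ := hQ.sep h2.symm
    rw [hg]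
    exact hFi g z.1 z.2 hz.1 hz.2.1 hz.2.2
  have hτ : ContDiff ℝ ∞ (fun y : Wx G H ⊕ Unit → ℝ => y (Sum.inr ())) := contDiff_apply ℝ ℝ _
  have hset : {y ∈ PsiR ρ '' W | 0 ≤ y (Sum.inr ()) ∧ y (Sum.inr ()) ≤ 1} = PsiR ρ '' X := by
    ext y
    constructor
    · rintro ⟨⟨z, hz, rfl⟩, hy⟩
      exact ⟨z, ⟨hz, hy⟩, rfl⟩
    · rintro ⟨z, hz, rfl⟩
      exact ⟨⟨z, hz.1, rfl⟩, hz.2⟩
  have key : ∀ (X' : Set H) (f' : H → (ι → ℝ)) (h' : UpData ρ V m X' f') (s : ℝ), 0 ≤ s → s ≤ 1 →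
      (∀ x, x ∈ X' ↔ (x, s) ∈ W) → (∀ x ∈ X', F (x, s) = f' x) →
      ∃ a : (Wx G H → ℝ) → (Wx G H ⊕ Unit → ℝ), IsDiffeo a (Psi ρ '' X') {y ∈ PsiR ρ '' W | y (Sum.inr ()) = s} ∧
        ∀ y ∈ Psi ρ '' X', F' (a y) = desc ρ X' f' y := by
    intro X' f' h' s hs0 hs1 hX' hf'
    refine ⟨fun y => jn (Wx G H) (y, s), ⟨?_, ?_, fun y i => y (Sum.inl i), ?_, ?_, ?_, ?_⟩, ?_⟩
    · exact (jn (Wx G H)).contDiff.comp (contDiff_id.prodMk contDiff_const)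
    · rintro _ ⟨x, hx, rfl⟩
      exact ⟨⟨(x, s), (hX' x).1 hx, rfl⟩, rfl⟩
    · exact contDiff_pi.2 fun i => contDiff_apply ℝ ℝ _
    · rintro _ ⟨⟨⟨x, t⟩, hx, rfl⟩, ht⟩
      have ht' : t = s := ht
      refine ⟨x, (hX' x).2 (ht' ▸ hx), rfl⟩
    · intro y _
      rfl
    · rintro _ ⟨⟨⟨x, t⟩, hx, rfl⟩, ht⟩
      have ht' : t = s := ht
      funext i
      rcases i with i | i
      · rfl
      · exact ht'.symm
    · rintro _ ⟨x, hx, rfl⟩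
      have h1 : F' (PsiR ρ (x, s)) = F (x, s) := hF'v (x, s) ⟨(hX' x).1 hx, hs0, hs1⟩
      rw [desc_psi ρ X' f' h'.stab h'.inv x hx, ← hf' x hx, ← h1]
      rfl
  refine ⟨Wx G H ⊕ Unit, inferInstance, PsiR ρ '' W, fun y => y (Sum.inr ()), F', ?_, hτ, ?_, ?_, ?_, ?_,
    key X₀ f₀ h₀ 0 le_rfl zero_le_one hX₀ hf₀, key X₁ f₁ h₁ 1 zero_le_one le_rfl hX₁ hf₁⟩
  · exact isSubmfd_iff.2 (hQ.subE_image hW (fun g z hz => hst g z.1 z.2 hz)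
      (fun g z hz he => hfr g z.1 z.2 hz (congrArg Prod.fst he)))
  · rintro _ ⟨⟨x, t⟩, hx, rfl⟩ ht
    obtain ⟨v, hv1, hv2⟩ := hreg x t hx ht
    refine ⟨fderiv ℝ (PsiR ρ) (x, t) v, ?_, ?_⟩
    · intro h hh hh0
      have h1 : fderiv ℝ (h ∘ PsiR ρ) (x, t) v = 0 := hv1 _ (hh.comp hQ.smooth) fun z hz => hh0 _ ⟨z, hz, rfl⟩
      rw [fderiv_comp (x, t) (hh.differentiable (by simp) _) (hQ.smooth.differentiable (by simp) _)] at h1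
      exact h1
    · have h2 : HasFDerivAt (fun y : Wx G H ⊕ Unit → ℝ => y (Sum.inr ()))
        (ContinuousLinearMap.proj (Sum.inr ()) : (Wx G H ⊕ Unit → ℝ) →L[ℝ] ℝ) (PsiR ρ (x, t)) :=
        (ContinuousLinearMap.proj (R := ℝ) (φ := fun _ : Wx G H ⊕ Unit => ℝ) (Sum.inr ())).hasFDerivAt
      rw [h2.fderiv, (psiR_hasFDerivAt ρ (x, t)).fderiv]
      exact hv2
  · rw [hset]
    exact hc.image hQ.smooth.continuous
  · rw [hset]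
    exact cont_image hQ hXst hXfr F hF F' hF'v
  · rw [hset]
    rintro _ ⟨z, hz, rfl⟩
    rw [hF'v z hz]
    exact hFV z.1 z.2 hz.1 hz.2.1 hz.2.2

end Pool.Agent.Helper93.BPF
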