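import Pool.Agent.Helper93.BPF.BordUp

/-!
BPF: the cylinder: diffeomorphic singular manifolds are bordant.
-/

set_option autoImplicit false

namespace Pool.Agent.Helper93.BPF

open Pool.Agent.Helper79.BP
open scoped ContDiff

/-- The projection `y ↦ y ∘ inl`. -/
noncomputable def pl (κ : Type) [Fintype κ] : (κ ⊕ Unit → ℝ) →L[ℝ] (κ → ℝ) :=
  ContinuousLinearMap.pi fun i => ContinuousLinearMap.proj (Sum.inl i)

theorem pl_apply (κ : Type) [Fintype κ] (y : κ ⊕ Unit → ℝ) (i : κ) : pl κ y i = y (Sum.inl i) := rfl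

theorem pl_jn (κ : Type) [Fintype κ] (p : (κ → ℝ) × ℝ) : pl κ (jn κ p) = p.1 := rfl

theorem bord_of_diffeo {ι : Type} {V : Set (ι → ℝ)} {m : ℕ} (A B : Sing V m) (a : (A.κ → ℝ) → (B.κ → ℝ))
    (ha : letI := A.fin; letI := B.fin; IsDiffeo a A.X B.X) (hf : ∀ x ∈ A.X, B.f (a x) = A.f x) : Bord A B := by
  letI := A.fin
  letI := B.fin
  obtain ⟨ha1, ha2, b, hb1, hb2, hba, hab⟩ := ha
  have hset : {y ∈ {y : B.κ ⊕ Unit → ℝ | pl B.κ y ∈ B.X} | 0 ≤ y (Sum.inr ()) ∧ y (Sum.inr ()) ≤ 1} =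
      (fun p => jn B.κ p) '' (B.X ×ˢ Set.Icc 0 1) := by
    ext y
    constructor
    · rintro ⟨h1, h2⟩
      refine ⟨(pl B.κ y, y (Sum.inr ())), ⟨h1, h2⟩, ?_⟩
      funext i
      rcases i with i | i <;> rfl
    · rintro ⟨p, hp, rfl⟩
      exact ⟨hp.1, hp.2⟩
  have hcont : ContinuousOn (fun y : B.κ ⊕ Unit → ℝ => B.f (pl B.κ y)) {y | pl B.κ y ∈ B.X} :=
    B.cont.comp (pl B.κ).continuous.continuousOn fun y hy => hy
  refine ⟨B.κ ⊕ Unit, inferInstance, {y | pl B.κ y ∈ B.X}, fun y => y (Sum.inr ()), fun y => B.f (pl B.κ y),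
    ?_, contDiff_apply ℝ ℝ _, ?_, ?_, ?_, ?_, ?_, ?_⟩
  · intro y hy
    obtain ⟨c, g, U, hc, hU, hyU, hg, hgU, hsurj⟩ := B.submfd (pl B.κ y) hy
    refine ⟨c, fun y => g (pl B.κ y), (pl B.κ) ⁻¹' U, ?_, hU.preimage (pl B.κ).continuous, hyU,
      hg.comp (pl B.κ).contDiff.contDiffOn fun y hy => hy, fun z hz => hgU _ hz, ?_⟩
    · rw [Fintype.card_sum, Fintype.card_unit]
      omega
    · have h1 : HasFDerivAt g (fderiv ℝ g (pl B.κ y)) (pl B.κ y) :=
        ((hg.contDiffAt (hU.mem_nhds hyU)).differentiableAt (by simp)).hasFDerivAt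
      have h2 : HasFDerivAt (fun y => g (pl B.κ y)) ((fderiv ℝ g (pl B.κ y)).comp (pl B.κ)) y :=
        h1.comp y (pl B.κ).hasFDerivAt
      rw [h2.fderiv]
      intro w
      obtain ⟨v, hv⟩ := hsurj w
      exact ⟨jn B.κ (v, 0), hv⟩
  · intro y hy _
    refine ⟨jn B.κ (0, 1), ?_, ?_⟩
    · intro h hh hh0
      have h1 : HasFDerivAt h (fderiv ℝ h y) (y + (0 : ℝ) • jn B.κ (0, 1)) := by
        rw [zero_smul, add_zero]
        exact (hh.differentiable (by simp) y).hasFDerivAt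
      have h2 : HasDerivAt (fun t : ℝ => y + t • jn B.κ (0, 1)) (jn B.κ (0, 1)) 0 := by
        simpa using ((hasDerivAt_id (0 : ℝ)).smul_const (jn B.κ (0, 1))).const_add y
      have h3 : HasDerivAt (fun t : ℝ => h (y + t • jn B.κ (0, 1))) (fderiv ℝ h y (jn B.κ (0, 1))) 0 :=
        h1.comp_hasDerivAt (0 : ℝ) h2
      have h4 : (fun t : ℝ => h (y + t • jn B.κ (0, 1))) = fun _ => 0 := by
        funext t
        refine hh0 _ ?_
        show pl B.κ (y + t • jn B.κ (0, 1)) ∈ B.X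
        rw [map_add, map_smul, pl_jn, smul_zero, add_zero]
        exact hy
      rw [h4] at h3
      exact h3.unique (hasDerivAt_const _ _)
    · have h2 : HasFDerivAt (fun y : B.κ ⊕ Unit → ℝ => y (Sum.inr ()))
        (ContinuousLinearMap.proj (Sum.inr ()) : (B.κ ⊕ Unit → ℝ) →L[ℝ] ℝ) y :=
        (ContinuousLinearMap.proj (R := ℝ) (φ := fun _ : B.κ ⊕ Unit => ℝ) (Sum.inr ())).hasFDerivAt
      rw [h2.fderiv]
      show (jn B.κ ((0 : B.κ → ℝ), (1 : ℝ))) (Sum.inr ()) ≠ 0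
      rw [jn_inr]
      exact one_ne_zero
  · rw [hset]
    exact (B.compact.prod isCompact_Icc).image (jn B.κ).continuous
  · exact hcont.mono fun y hy => hy.1
  · intro y hy
    exact B.maps hy.1
  · refine ⟨fun x => jn B.κ (a x, 0), ⟨(jn B.κ).contDiff.comp (ha1.prodMk contDiff_const), ?_,
      fun y => b (pl B.κ y), hb1.comp (pl B.κ).contDiff, ?_, ?_, ?_⟩, ?_⟩
    · intro x hx
      exact ⟨ha2 hx, rfl⟩
    · intro y hy
      exact hb2 hy.1
    · intro x hx
      exact hba x hx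
    · intro y hy
      have h1 : a (b (pl B.κ y)) = pl B.κ y := hab _ hy.1
      simp only [h1]
      funext i
      rcases i with i | i
      · rfl
      · exact hy.2.symm
    · intro x hx
      exact hf x hx
  · refine ⟨fun x => jn B.κ (x, 1), ⟨(jn B.κ).contDiff.comp (contDiff_id.prodMk contDiff_const), ?_,
      pl B.κ, (pl B.κ).contDiff, ?_, ?_, ?_⟩, ?_⟩
    · intro x hx
      exact ⟨hx, rfl⟩
    · intro y hy
      exact hy.1
    · intro x hx
      rfl
    · intro y hy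
      funext i
      rcases i with i | i
      · rfl
      · exact hy.2.symm
    · intro x hx
      rfl

end Pool.Agent.Helper93.BPF
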