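import Pool.Agent.Helper79.BP.Stat

/-!
PROJECT BP, block F (bordism), general part: manifolds are given upstairs as submanifolds `X` of a finite dimensional real
space `H`, stable and free under a finite group `G` acting linearly (`ρ`); the quotient `X / G` is realised as `Psi ρ '' X`,
where `Psi ρ` is a polynomial map.
-/

set_option autoImplicit false

namespace Pool.Agent.Helper93.BPF

open Pool.Agent.Helper79.BP
open scoped ContDiff

/-- `M` is a submanifold of dimension `m` of the finite dimensional space `H`. -/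
def SubE {H : Type*} [NormedAddCommGroup H] [NormedSpace ℝ H] (m : ℕ) (M : Set H) : Prop :=
  ∀ x ∈ M, ∃ (c : ℕ) (g : H → (Fin c → ℝ)) (U : Set H), c + m = Module.finrank ℝ H ∧
    IsOpen U ∧ x ∈ U ∧ ContDiffOn ℝ ∞ g U ∧ (∀ y ∈ U, y ∈ M ↔ g y = 0) ∧
    Function.Surjective (fderiv ℝ g x)

/-- `v` is a tangent vector of `M` at `x`. -/
def TanE {H : Type*} [NormedAddCommGroup H] [NormedSpace ℝ H] (M : Set H) (x v : H) : Prop :=
  ∀ h : H → ℝ, ContDiff ℝ ∞ h → (∀ y ∈ M, h y = 0) → fderiv ℝ h x v = 0

section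

variable {G : Type} [Group G] {H : Type} [NormedAddCommGroup H] [NormedSpace ℝ H]

/-- `X` is stable under the action `ρ`. -/
def Stab (ρ : G →* (H →L[ℝ] H)) (X : Set H) : Prop := ∀ g, ∀ x ∈ X, ρ g x ∈ X

/-- The action `ρ` is free on `X`. -/
def Free (ρ : G →* (H →L[ℝ] H)) (X : Set H) : Prop := ∀ g, ∀ x ∈ X, ρ g x = x → g = 1

/-- The index type of the factors of the polynomials used in `Psi`. -/
abbrev Jx (G : Type) : Type := Option (G ⊕ G)

/-- The index type of the coordinates of `Psi`. -/
def Wx (G H : Type) [NormedAddCommGroup H] [NormedSpace ℝ H] : Type :=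
  Jx G → Option (Fin (Module.finrank ℝ H))

noncomputable instance instWx (G H : Type) [Fintype G] [NormedAddCommGroup H] [NormedSpace ℝ H] :
    Fintype (Wx G H) :=
  @Fintype.ofFinite (Jx G → Option (Fin (Module.finrank ℝ H))) inferInstance

/-- The constant `1` and the coordinates. -/
noncomputable def co [FiniteDimensional ℝ H] (x : H) : Option (Fin (Module.finrank ℝ H)) → ℝ
  | none => 1
  | some i => (Module.finBasis ℝ H).repr x i

/-- The polynomial map `x ↦ (∑_g φ(g x))_φ`, `φ` a product of coordinates. -/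
noncomputable def Psi [Fintype G] [FiniteDimensional ℝ H] (ρ : G →* (H →L[ℝ] H)) (x : H) : Wx G H → ℝ :=
  fun w => ∑ g, ∏ j, co (ρ g x) (w j)

/-- The function on `Psi ρ '' X` defined by a `G`-invariant function on `X`. -/
noncomputable def desc [Fintype G] [FiniteDimensional ℝ H] {ι : Type} (ρ : G →* (H →L[ℝ] H)) (X : Set H)
    (f : H → (ι → ℝ)) (y : Wx G H → ℝ) : ι → ℝ :=
  open scoped Classical in
  if h : ∃ x, x ∈ X ∧ Psi ρ x = y then f h.choose else 0

/-- `(X, f)` represents a singular `m`-manifold `X / G → V`. -/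
structure UpData {ι : Type} (ρ : G →* (H →L[ℝ] H)) (V : Set (ι → ℝ)) (m : ℕ) (X : Set H) (f : H → (ι → ℝ)) :
    Prop where
  compact : IsCompact X
  sub : SubE m X
  stab : Stab ρ X
  free : Free ρ X
  cont : ContinuousOn f X
  inv : ∀ g, ∀ x ∈ X, f (ρ g x) = f x
  maps : Set.MapsTo f X V

end

end Pool.Agent.Helper93.BPF
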