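import Pool.Agent.Helper93.BPF.Defs

/-!
BPF: a locally smooth map on a closed set extends to a smooth map.
-/

set_option autoImplicit false

namespace Pool.Agent.Helper93.BPF

open scoped ContDiff Manifold Topology

theorem ext_smooth {E F : Type*} [NormedAddCommGroup E] [NormedSpace ℝ E] [FiniteDimensional ℝ E]
    [NormedAddCommGroup F] [NormedSpace ℝ F] (X : Set E) (hX : IsClosed X) (f : E → F)
    (hloc : ∀ x ∈ X, ∃ (U : Set E) (g : E → F), IsOpen U ∧ x ∈ U ∧ ContDiffOn ℝ ∞ g U ∧ ∀ y ∈ U, y ∈ X → g y = f y) :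
    ∃ F0 : E → F, ContDiff ℝ ∞ F0 ∧ ∀ x ∈ X, F0 x = f x := by
  obtain ⟨g, hg⟩ := exists_contMDiffMap_forall_mem_convex_of_local (n := ⊤) (𝓘(ℝ, E)) (M := E) (F := F)
    (t := fun x => {w | x ∈ X → w = f x}) (fun x => by
      intro a ha b hb s t _ _ hst hx
      have ha' : a = f x := ha hx
      have hb' : b = f x := hb hx
      show s • a + t • b = f x
      rw [ha', hb', ← add_smul, hst, one_smul])
    (fun x => by
      by_cases hx : x ∈ X
      · obtain ⟨U, g, hU, hxU, hg, hgy⟩ := hloc x hx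
        exact ⟨U, hU.mem_nhds hxU, g, hg.contMDiffOn, fun y hy hyX => hgy y hy hyX⟩
      · exact ⟨Xᶜ, hX.isOpen_compl.mem_nhds hx, fun _ => 0, contMDiffOn_const, fun y hy hyX => absurd hyX hy⟩)
  exact ⟨g, contMDiff_iff_contDiff.1 g.contMDiff, fun x hx => hg x hx⟩

end Pool.Agent.Helper93.BPF
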