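import Pool.Agent.Helper93.BPF.Ift

/-!
BPF: tangent vectors of a submanifold are the vectors killed by the differential of a local equation.
-/

set_option autoImplicit false

namespace Pool.Agent.Helper93.BPF

open scoped ContDiff

theorem tanE_of_ker {H : Type*} [NormedAddCommGroup H] [NormedSpace ℝ H] [FiniteDimensional ℝ H] {M U : Set H}
    {x : H} {c : ℕ} {g : H → (Fin c → ℝ)} (hU : IsOpen U) (hx : x ∈ U) (hxM : g x = 0) (hg : ContDiffOn ℝ ∞ g U)
    (hM : ∀ y ∈ U, g y = 0 → y ∈ M) (hsurj : Function.Surjective (fderiv ℝ g x)) {v : H}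
    (hv : fderiv ℝ g x v = 0) : TanE M x v := by
  intro h hh hhM
  set L : H →L[ℝ] (Fin c → ℝ) := fderiv ℝ g x with hL
  obtain ⟨P0, hP0⟩ := (LinearMap.ker (L : H →ₗ[ℝ] (Fin c → ℝ))).subtype.exists_leftInverse_of_injective
    (Submodule.ker_subtype _)
  set k := Module.finrank ℝ (LinearMap.ker (L : H →ₗ[ℝ] (Fin c → ℝ))) with hk
  set P : H →L[ℝ] (Fin k → ℝ) := LinearMap.toContinuousLinearMap
    ((Module.finBasis ℝ (LinearMap.ker (L : H →ₗ[ℝ] (Fin c → ℝ)))).equivFun.toLinearMap ∘ₗ P0) with hP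
  have hPinj : ∀ w : H, L w = 0 → P w = 0 → w = 0 := by
    intro w hw hPw
    have hPw' : (Module.finBasis ℝ (LinearMap.ker (L : H →ₗ[ℝ] (Fin c → ℝ)))).equivFun (P0 w) = 0 := hPw
    have h1 : P0 w = 0 := (LinearEquiv.map_eq_zero_iff _).1 hPw'
    have h2 : P0 ((LinearMap.ker (L : H →ₗ[ℝ] (Fin c → ℝ))).subtype ⟨w, hw⟩) = ⟨w, hw⟩ := by
      rw [← LinearMap.comp_apply, hP0]
      rfl
    have h3 : (⟨w, hw⟩ : LinearMap.ker (L : H →ₗ[ℝ] (Fin c → ℝ))) = 0 := by
      rw [← h2]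
      exact h1
    exact congrArg Subtype.val h3
  have hrank : c + k = Module.finrank ℝ H := by
    have h1 := LinearMap.finrank_range_add_finrank_ker (L : H →ₗ[ℝ] (Fin c → ℝ))
    have h2 : LinearMap.range (L : H →ₗ[ℝ] (Fin c → ℝ)) = ⊤ := LinearMap.range_eq_top.2 hsurj
    rw [h2, finrank_top] at h1
    simpa using h1
  have hgd : HasFDerivAt g L x := ((hg.contDiffAt (hU.mem_nhds hx)).differentiableAt (by simp)).hasFDerivAt
  have hΘd : HasFDerivAt (fun y => (g y, P y)) (L.prod P) x := hgd.prodMk P.hasFDerivAt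
  obtain ⟨φ, hcoe, hsub, hmem, hsmooth, -⟩ := ift_smooth (fun y => (g y, P y)) U hU x hx
    (hg.prodMk P.contDiff.contDiffOn) (by
      intro w hw
      rw [hΘd.fderiv] at hw
      exact hPinj w (congrArg Prod.fst hw) (congrArg Prod.snd hw))
    (by rw [Module.finrank_prod]; simp; omega)
  have hval : φ x = (0, P x) := by rw [hcoe]; exact Prod.ext hxM rfl
  have htgt : ((0 : Fin c → ℝ), P x) ∈ φ.target := hval ▸ φ.map_source hmem
  -- the curve
  set γ0 : ℝ → (Fin c → ℝ) × (Fin k → ℝ) := fun t => (0, P x + t • P v) with hγ0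
  have hγ0c : Continuous γ0 := by fun_prop
  have hγ00 : γ0 0 = (0, P x) := by simp [hγ0]
  have hev : ∀ᶠ t in nhds (0 : ℝ), γ0 t ∈ φ.target :=
    hγ0c.continuousAt.eventually_mem (by rw [hγ00]; exact φ.open_target.mem_nhds htgt)
  have hin : ∀ t, γ0 t ∈ φ.target → h (φ.symm (γ0 t)) = 0 := by
    intro t ht
    have h1 : φ (φ.symm (γ0 t)) = γ0 t := φ.right_inv ht
    rw [hcoe] at h1
    exact hhM _ (hM _ (hsub (φ.map_target ht)) (congrArg Prod.fst h1))
  have hγ0d : HasDerivAt γ0 (0, P v) 0 := by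
    refine HasDerivAt.prodMk (hasDerivAt_const _ _) ?_
    simpa using ((hasDerivAt_id (0 : ℝ)).smul_const (P v)).const_add (P x)
  have hsd : HasFDerivAt φ.symm (fderiv ℝ φ.symm (γ0 0)) (γ0 0) := by
    rw [hγ00]
    exact ((hsmooth.contDiffAt (φ.open_target.mem_nhds htgt)).differentiableAt (by simp)).hasFDerivAt
  have hγd : HasDerivAt (fun t => φ.symm (γ0 t)) (fderiv ℝ φ.symm (γ0 0) (0, P v)) 0 :=
    hsd.comp_hasDerivAt (0 : ℝ) hγ0d
  set u : H := fderiv ℝ φ.symm (γ0 0) (0, P v) with hu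
  have hsx : φ.symm (γ0 0) = x := by rw [hγ00, ← hval]; exact φ.left_inv hmem
  -- `u = v`
  have huv : u = v := by
    have h1 : HasDerivAt (fun t => (fun y => (g y, P y)) (φ.symm (γ0 t))) (L.prod P u) 0 := by
      have h2 : HasFDerivAt (fun y => (g y, P y)) (L.prod P) (φ.symm (γ0 0)) := by rw [hsx]; exact hΘd
      exact h2.comp_hasDerivAt (0 : ℝ) hγd
    have h3 : (fun t => (fun y => (g y, P y)) (φ.symm (γ0 t))) =ᶠ[nhds 0] γ0 := by
      filter_upwards [hev] with t ht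
      have h4 : φ (φ.symm (γ0 t)) = γ0 t := φ.right_inv ht
      rw [hcoe] at h4
      exact h4
    have h5 := (h1.congr_of_eventuallyEq h3.symm).unique hγ0d
    have h6 : L u = 0 := congrArg Prod.fst h5
    have h7 : P u = P v := congrArg Prod.snd h5
    have h8 : u - v = 0 := hPinj _ (by rw [map_sub, h6, hv, sub_zero]) (by rw [map_sub, h7, sub_self])
    exact sub_eq_zero.1 h8
  have h9 : HasDerivAt (fun t => h (φ.symm (γ0 t))) (fderiv ℝ h x u) 0 := by
    have h10 : HasFDerivAt h (fderiv ℝ h x) (φ.symm (γ0 0)) := by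
      rw [hsx]
      exact (hh.differentiable (by simp) x).hasFDerivAt
    exact h10.comp_hasDerivAt (0 : ℝ) hγd
  have h11 : (fun t => h (φ.symm (γ0 t))) =ᶠ[nhds 0] fun _ => (0 : ℝ) := by
    filter_upwards [hev] with t ht
    exact hin t ht
  have h12 := (h9.congr_of_eventuallyEq h11.symm).unique (hasDerivAt_const (0 : ℝ) (0 : ℝ))
  rw [huv] at h12
  exact h12

end Pool.Agent.Helper93.BPF
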