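import Pool.Agent.Helper93.BPF.Cyl
import Pool.Agent.Helper93.BPF.Ext
import Pool.Agent.Helper93.BPF.Tan

/-!
BPF: descent to a singular manifold given by an immersive map with the orbits as fibres.
-/

set_option autoImplicit false

namespace Pool.Agent.Helper93.BPF

open Pool.Agent.Helper79.BP
open scoped ContDiff

variable {G : Type} [Group G] [Fintype G] {H : Type} [NormedAddCommGroup H] [NormedSpace ℝ H]
  [FiniteDimensional ℝ H] {ι : Type} {V : Set (ι → ℝ)} {m : ℕ}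

theorem descent_fwd {ρ : G →* (H →L[ℝ] H)} {X : Set H} (hXc : IsCompact X) (hst : Stab ρ X) (hfr : Free ρ X)
    {κ : Type} [Fintype κ] (π : H → (κ → ℝ)) (O : Set H) (hO : IsOpen O) (hXO : X ⊆ O) (hπ : ContDiffOn ℝ ∞ π O)
    (hinv : ∀ g, ∀ x ∈ X, π (ρ g x) = π x) :
    ∃ a : (Wx G H → ℝ) → (κ → ℝ), ContDiff ℝ ∞ a ∧ ∀ x ∈ X, a (Psi ρ x) = π x := by
  have hd : ∀ x ∈ X, desc ρ X π (Psi ρ x) = π x := fun x hx => desc_psi ρ X π hst hinv x hx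
  obtain ⟨a, ha, hax⟩ := ext_smooth (Psi ρ '' X) (hXc.image (psi_smooth ρ).continuous).isClosed (desc ρ X π) (by
    rintro _ ⟨x, hx, rfl⟩
    obtain ⟨e, O', α, β, h1, h2, h3, h4, h5, h6, h7, h8, -⟩ := (qm_psi ρ).exists_section (fun g => hfr g x hx)
    refine ⟨O' ∩ α ⁻¹' O, π ∘ α, h4.continuousOn.isOpen_inter_preimage h2 hO, ⟨h3, ?_⟩, ?_, ?_⟩
    · show α (Psi ρ x) ∈ O
      rw [h6]
      exact hXO hx
    · exact hπ.comp (h4.mono Set.inter_subset_left) fun y hy => hy.2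
    · rintro _ hy ⟨z, hz, rfl⟩
      obtain ⟨h9, g, hg⟩ := h7 z hy.1
      show π (α (Psi ρ z)) = _
      rw [hg, hd z hz]
      exact hinv g z hz)
  exact ⟨a, ha, fun x hx => by rw [hax _ ⟨x, hx, rfl⟩, hd x hx]⟩

theorem descent_bwd {ρ : G →* (H →L[ℝ] H)} {X : Set H} (hXc : IsCompact X) (hXs : SubE m X) (hst : Stab ρ X)
    {κ : Type} [Fintype κ] (π : H → (κ → ℝ)) (O : Set H) (hO : IsOpen O) (hXO : X ⊆ O) (hπ : ContDiffOn ℝ ∞ π O)
    (hinv : ∀ g, ∀ x ∈ X, π (ρ g x) = π x)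
    (hsep : ∀ x ∈ X, ∀ y ∈ X, π x = π y → ∃ g, y = ρ g x)
    (himm : ∀ x ∈ X, ∀ v, TanE X x v → fderiv ℝ π x v = 0 → v = 0) :
    ∃ b : (κ → ℝ) → (Wx G H → ℝ), ContDiff ℝ ∞ b ∧ ∀ x ∈ X, b (π x) = Psi ρ x := by
  classical
  have hπc : ContinuousOn π X := hπ.continuousOn.mono hXO
  set b0 : (κ → ℝ) → (Wx G H → ℝ) := fun y => if h : ∃ x, x ∈ X ∧ π x = y then Psi ρ h.choose else 0 with hb0
  have hb0v : ∀ x ∈ X, b0 (π x) = Psi ρ x := by
    intro x hx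
    have h : ∃ x', x' ∈ X ∧ π x' = π x := ⟨x, hx, rfl⟩
    simp only [hb0]
    rw [dif_pos h]
    obtain ⟨h1, h2⟩ := h.choose_spec
    obtain ⟨g, hg⟩ := hsep x hx _ h1 h2.symm
    rw [hg, psi_inv]
  obtain ⟨b, hb, hbx⟩ := ext_smooth (π '' X) (hXc.image_of_continuousOn hπc).isClosed b0 (by
    rintro _ ⟨x, hx, rfl⟩
    obtain ⟨c, g, Ug, hc, hUg, hxUg, hg, hgM, hgs⟩ := hXs x hx
    have hπd : HasFDerivAt π (fderiv ℝ π x) x :=
      ((hπ.contDiffAt (hO.mem_nhds (hXO hx))).differentiableAt (by simp)).hasFDerivAt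
    have hgd : HasFDerivAt g (fderiv ℝ g x) x :=
      ((hg.contDiffAt (hUg.mem_nhds hxUg)).differentiableAt (by simp)).hasFDerivAt
    obtain ⟨e, U2, O2, α, β, -, hU2, hxU2, hU2O, hO2, hxO2, hα, -, hsec, hαO, -, -⟩ :=
      immersion_local (fun z => (π z, g z)) (O ∩ Ug) (hO.inter hUg) x ⟨hXO hx, hxUg⟩
        ((hπ.mono Set.inter_subset_left).prodMk (hg.mono Set.inter_subset_right)) (by
          intro v hv
          rw [(hπd.prodMk hgd).fderiv] at hv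
          have h1 : fderiv ℝ π x v = 0 := congrArg Prod.fst hv
          have h2 : fderiv ℝ g x v = 0 := congrArg Prod.snd hv
          exact himm x hx v (tanE_of_ker hUg hxUg ((hgM x hxUg).1 hx) hg (fun y hy h => (hgM y hy).2 h) hgs h2) h1)
    set K : Set H := X \ ⋃ g, (ρ g) ⁻¹' U2 with hK
    have hKc : IsCompact K := hXc.diff (isOpen_iUnion fun g => hU2.preimage (ρ g).continuous)
    have hπK : IsClosed (π '' K) := (hKc.image_of_continuousOn (hπc.mono Set.diff_subset)).isClosed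
    have hi : Continuous (fun y : κ → ℝ => (y, (0 : Fin c → ℝ))) := by fun_prop
    have hgx : g x = 0 := (hgM x hxUg).1 hx
    refine ⟨(fun y : κ → ℝ => (y, (0 : Fin c → ℝ))) ⁻¹' O2 ∩ (π '' K)ᶜ, fun y => Psi ρ (α (y, 0)),
      (hO2.preimage hi).inter hπK.isOpen_compl, ⟨?_, ?_⟩, ?_, ?_⟩
    · show (π x, (0 : Fin c → ℝ)) ∈ O2
      rw [← hgx]
      exact hxO2
    · rintro ⟨z, ⟨hz, hzU⟩, hzx⟩
      obtain ⟨g', hg'⟩ := hsep x hx z hz hzx.symm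
      apply hzU
      refine Set.mem_iUnion.2 ⟨g'⁻¹, ?_⟩
      show ρ g'⁻¹ z ∈ U2
      rw [hg', rho_inv]
      exact hxU2
    · refine (psi_smooth ρ).comp_contDiffOn (hα.comp ?_ fun y hy => hy.1)
      exact (contDiff_id.prodMk contDiff_const).contDiffOn
    · rintro _ hy ⟨z0, hz0, rfl⟩
      have h1 : z0 ∈ ⋃ g, (ρ g) ⁻¹' U2 := by
        by_contra hcon
        exact hy.2 ⟨z0, ⟨hz0, hcon⟩, rfl⟩
      obtain ⟨g', hg'⟩ := Set.mem_iUnion.1 h1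
      have hz : ρ g' z0 ∈ X := hst g' z0 hz0
      have hzU : ρ g' z0 ∈ U2 := hg'
      have h2 : g (ρ g' z0) = 0 := (hgM _ (hU2O hzU).2).1 hz
      have h3 : ((fun z => (π z, g z)) (ρ g' z0)) = (π z0, (0 : Fin c → ℝ)) := by
        simp only [h2, hinv g' z0 hz0]
      have h4 := (hsec (ρ g' z0) hzU (by
        have : (π z0, (0 : Fin c → ℝ)) ∈ O2 := hy.1
        rw [← h3] at this
        exact this)).1
      rw [hb0v z0 hz0]
      show Psi ρ (α (π z0, 0)) = Psi ρ z0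
      rw [← h3]
      have h5 : α (((fun z => (π z, g z)) (ρ g' z0))) = ρ g' z0 := h4
      rw [h5, psi_inv])
  exact ⟨b, hb, fun x hx => by rw [hbx _ ⟨x, hx, rfl⟩, hb0v x hx]⟩

/-- DESCENT: `X / G` is diffeomorphic to `A.X` by a map `π` which is smooth near `X`, immersive along `X` and whose fibres
on `X` are the orbits. -/
theorem descent {ρ : G →* (H →L[ℝ] H)} {X : Set H} {f : H → (ι → ℝ)} (h : UpData ρ V m X f) (A : Sing V m)
    (π : H → (A.κ → ℝ)) (O : Set H) (hO : IsOpen O) (hXO : X ⊆ O)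
    (hπ : letI := A.fin; ContDiffOn ℝ ∞ π O)
    (hπX : π '' X = A.X) (hinv : ∀ g, ∀ x ∈ X, π (ρ g x) = π x)
    (hsep : ∀ x ∈ X, ∀ y ∈ X, π x = π y → ∃ g, y = ρ g x)
    (himm : letI := A.fin; ∀ x ∈ X, ∀ v, TanE X x v → fderiv ℝ π x v = 0 → v = 0)
    (hf : ∀ x ∈ X, A.f (π x) = f x) : Bord (Q h) A := by
  letI := A.fin
  obtain ⟨a, ha, hax⟩ := descent_fwd h.compact h.stab h.free π O hO hXO hπ hinv
  obtain ⟨b, hb, hbx⟩ := descent_bwd h.compact h.sub h.stab π O hO hXO hπ hinv hsep himm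
  refine bord_of_diffeo (Q h) A a ⟨ha, ?_, b, hb, ?_, ?_, ?_⟩ ?_
  · rintro _ ⟨x, hx, rfl⟩
    rw [hax x hx, ← hπX]
    exact ⟨x, hx, rfl⟩
  · intro y hy
    rw [← hπX] at hy
    obtain ⟨x, hx, rfl⟩ := hy
    rw [hbx x hx]
    exact ⟨x, hx, rfl⟩
  · rintro _ ⟨x, hx, rfl⟩
    rw [hax x hx, hbx x hx]
  · intro y hy
    rw [← hπX] at hy
    obtain ⟨x, hx, rfl⟩ := hy
    rw [hbx x hx, hax x hx]
  · rintro _ ⟨x, hx, rfl⟩
    rw [hax x hx, hf x hx]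
    exact (desc_psi ρ X f h.stab h.inv x hx).symm

/-- DESCENT, second form: a map between two upstairs manifolds inducing a diffeomorphism of the quotients. -/
theorem descentQ {G' : Type} [Group G'] [Fintype G'] {H' : Type} [NormedAddCommGroup H'] [NormedSpace ℝ H']
    [FiniteDimensional ℝ H'] {ρ : G →* (H →L[ℝ] H)} {X : Set H} {f : H → (ι → ℝ)} (h : UpData ρ V m X f)
    {ρ' : G' →* (H' →L[ℝ] H')} {X' : Set H'} {f' : H' → (ι → ℝ)} (h' : UpData ρ' V m X' f')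
    (ψ : H → H') (O : Set H) (hO : IsOpen O) (hXO : X ⊆ O) (hψ : ContDiffOn ℝ ∞ ψ O)
    (hmaps : Set.MapsTo ψ X X') (honto : ∀ x' ∈ X', ∃ x ∈ X, ∃ g', ρ' g' (ψ x) = x')
    (hinv : ∀ g, ∀ x ∈ X, ∃ g', ψ (ρ g x) = ρ' g' (ψ x))
    (hsep : ∀ x ∈ X, ∀ y ∈ X, (∃ g', ρ' g' (ψ x) = ψ y) → ∃ g, y = ρ g x)
    (himm : ∀ x ∈ X, ∀ v, TanE X x v → fderiv ℝ ψ x v = 0 → v = 0)
    (hf : ∀ x ∈ X, f' (ψ x) = f x) : Bord (Q h) (Q h') := by
  refine descent h (Q h') (fun x => Psi ρ' (ψ x)) O hO hXO ((psi_smooth ρ').comp_contDiffOn hψ) ?_ ?_ ?_ ?_ ?_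
  · ext y
    constructor
    · rintro ⟨x, hx, rfl⟩
      exact ⟨ψ x, hmaps hx, rfl⟩
    · rintro ⟨x', hx', rfl⟩
      obtain ⟨x, hx, g', hg'⟩ := honto x' hx'
      refine ⟨x, hx, ?_⟩
      show Psi ρ' (ψ x) = Psi ρ' x'
      rw [← hg', psi_inv]
  · intro g x hx
    obtain ⟨g', hg'⟩ := hinv g x hx
    rw [hg', psi_inv]
  · intro x hx y hy hxy
    obtain ⟨g', hg'⟩ := psi_sep ρ' hxy
    exact hsep x hx y hy ⟨g', hg'.symm⟩
  · intro x hx v hv h0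
    have h1 : HasFDerivAt ψ (fderiv ℝ ψ x) x :=
      ((hψ.contDiffAt (hO.mem_nhds (hXO hx))).differentiableAt (by simp)).hasFDerivAt
    have h2 : HasFDerivAt (Psi ρ') (fderiv ℝ (Psi ρ') (ψ x)) (ψ x) :=
      ((psi_smooth ρ').differentiable (by simp) _).hasFDerivAt
    have h3 : HasFDerivAt (fun x => Psi ρ' (ψ x)) ((fderiv ℝ (Psi ρ') (ψ x)).comp (fderiv ℝ ψ x)) x := h2.comp x h1
    have h4 : ((fderiv ℝ (Psi ρ') (ψ x)).comp (fderiv ℝ ψ x)) v = 0 := by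
      rw [← h3.fderiv]
      exact h0
    exact himm x hx v hv (psi_imm ρ' (fun g hg => h'.free g (ψ x) (hmaps hx) hg) _ h4)
  · intro x hx
    show desc ρ' X' f' (Psi ρ' (ψ x)) = f x
    rw [desc_psi ρ' X' f' h'.stab h'.inv (ψ x) (hmaps hx), hf x hx]

end Pool.Agent.Helper93.BPF
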