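import Pool.Agent.Helper93.BPF.Descent

/-!
PROJECT BP, block F, general part: the interface. Everything is proved: `desc_psi`, `q_compact`, `q_submfd`, `q_cont`,
`q_maps`, `Q` (file `QLem`), `bordUp` (file `BordUp`), `bord_of_diffeo` (file `Cyl`), `ext_smooth` (file `Ext`),
`tanE_of_ker` (file `Tan`), `descent`, `descentQ` (file `Descent`).
-/
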