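import Pool.Agent.Helper93.BPF.Defs

/-!
BPF: the inverse function theorem in the form we use, and local sections of immersions.
-/

set_option autoImplicit false

namespace Pool.Agent.Helper93.BPF

open scoped ContDiff

theorem ift_smooth {E F : Type*} [NormedAddCommGroup E] [NormedSpace ℝ E] [FiniteDimensional ℝ E]
    [NormedAddCommGroup F] [NormedSpace ℝ F] [FiniteDimensional ℝ F] (Θ : E → F) (O : Set E) (hO : IsOpen O)
    (a : E) (ha : a ∈ O) (hΘ : ContDiffOn ℝ ∞ Θ O) (hinj : ∀ v, fderiv ℝ Θ a v = 0 → v = 0)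
    (hdim : Module.finrank ℝ E = Module.finrank ℝ F) :
    ∃ φ : OpenPartialHomeomorph E F, (φ : E → F) = Θ ∧ φ.source ⊆ O ∧ a ∈ φ.source ∧
      ContDiffOn ℝ ∞ φ.symm φ.target ∧ Function.Surjective (fderiv ℝ φ.symm (Θ a)) := by
  have : CompleteSpace E := FiniteDimensional.complete ℝ E
  have : CompleteSpace F := FiniteDimensional.complete ℝ F
  have hat : ∀ p ∈ O, ContDiffAt ℝ ∞ Θ p := fun p hp => hΘ.contDiffAt (hO.mem_nhds hp)
  set L : E ≃ₗ[ℝ] F := LinearEquiv.ofInjectiveOfFinrankEq (fderiv ℝ Θ a : E →ₗ[ℝ] F)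
    ((injective_iff_map_eq_zero _).2 hinj) hdim with hL
  set f' : E ≃L[ℝ] F := L.toContinuousLinearEquiv with hf'
  have hfe : (f' : E →L[ℝ] F) = fderiv ℝ Θ a := by
    ext v
    rfl
  have hd : HasFDerivAt Θ (f' : E →L[ℝ] F) a := by
    rw [hfe]
    exact ((hat a ha).differentiableAt (by simp)).hasFDerivAt
  set φ0 := (hat a ha).toOpenPartialHomeomorph Θ hd (by simp) with hφ0
  set S : Set E := O ∩ {p | fderiv ℝ Θ p ∈ Set.range ((↑) : (E ≃L[ℝ] F) → (E →L[ℝ] F))} with hS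
  have hSo : IsOpen S := by
    have hc : ContinuousOn (fderiv ℝ Θ) O := hΘ.continuousOn_fderiv_of_isOpen hO (by simp)
    exact hc.isOpen_inter_preimage hO ContinuousLinearEquiv.isOpen
  have haS : a ∈ S := ⟨ha, ⟨f', hfe⟩⟩
  set φ := φ0.restrOpen S hSo with hφ
  have hcoe : (φ : E → F) = Θ := rfl
  have hsrc : φ.source = φ0.source ∩ S := rfl
  have hsymm : ∀ y ∈ φ.target, ContDiffAt ℝ ∞ φ.symm y ∧
      ∃ e : E ≃L[ℝ] F, HasFDerivAt φ.symm (e.symm : F →L[ℝ] E) y := by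
    intro y hy
    have h1 : φ.symm y ∈ φ.source := φ.map_target hy
    rw [hsrc] at h1
    obtain ⟨-, hO1, e, he⟩ := h1
    have h2 : HasFDerivAt φ (e : E →L[ℝ] F) (φ.symm y) := by
      rw [hcoe, he]
      exact ((hat _ hO1).differentiableAt (by simp)).hasFDerivAt
    exact ⟨φ.contDiffAt_symm hy h2 (hat _ hO1), e, φ.hasFDerivAt_symm hy h2⟩
  refine ⟨φ, hcoe, ?_, ?_, fun y hy => (hsymm y hy).1.contDiffWithinAt, ?_⟩
  · rw [hsrc]
    exact fun p hp => hp.2.1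
  · rw [hsrc]
    exact ⟨(hat a ha).mem_toOpenPartialHomeomorph_source hd (by simp), haS⟩
  · have h3 : a ∈ φ.source := by
      rw [hsrc]
      exact ⟨(hat a ha).mem_toOpenPartialHomeomorph_source hd (by simp), haS⟩
    have h4 : Θ a ∈ φ.target := φ.map_source h3
    obtain ⟨-, e, he⟩ := hsymm _ h4
    rw [he.fderiv]
    exact e.symm.surjective

/-- Local structure of the image of an immersion at a point. -/
theorem immersion_local {H H' : Type*} [NormedAddCommGroup H] [NormedSpace ℝ H] [FiniteDimensional ℝ H]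
    [NormedAddCommGroup H'] [NormedSpace ℝ H'] [FiniteDimensional ℝ H'] (Ψ : H → H') (O : Set H) (hO : IsOpen O)
    (x : H) (hx : x ∈ O) (hΨ : ContDiffOn ℝ ∞ Ψ O) (hinj : ∀ v, fderiv ℝ Ψ x v = 0 → v = 0) :
    ∃ (e : ℕ) (U : Set H) (O' : Set H') (α : H' → H) (β : H' → (Fin e → ℝ)),
      e + Module.finrank ℝ H = Module.finrank ℝ H' ∧ IsOpen U ∧ x ∈ U ∧ U ⊆ O ∧ IsOpen O' ∧ Ψ x ∈ O' ∧
      ContDiffOn ℝ ∞ α O' ∧ ContDiffOn ℝ ∞ β O' ∧
      (∀ z ∈ U, Ψ z ∈ O' → α (Ψ z) = z ∧ β (Ψ z) = 0) ∧ (∀ y ∈ O', α y ∈ O) ∧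
      (∀ y ∈ O', β y = 0 → Ψ (α y) = y) ∧
      ∀ (v : H) (w : Fin e → ℝ), ∃ u : H', fderiv ℝ α (Ψ x) u = v ∧ fderiv ℝ β (Ψ x) u = w := by
  set L : H →L[ℝ] H' := fderiv ℝ Ψ x with hL
  obtain ⟨N, hN⟩ := Submodule.exists_isCompl (LinearMap.range (L : H →ₗ[ℝ] H'))
  set e := Module.finrank ℝ N with he
  have hrank : Module.finrank ℝ (LinearMap.range (L : H →ₗ[ℝ] H')) = Module.finrank ℝ H :=
    LinearMap.finrank_range_of_inj ((injective_iff_map_eq_zero _).2 hinj)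
  have hsum : e + Module.finrank ℝ H = Module.finrank ℝ H' := by
    have := Submodule.finrank_add_eq_of_isCompl hN
    omega
  set A : (Fin e → ℝ) →L[ℝ] H' :=
    LinearMap.toContinuousLinearMap (N.subtype ∘ₗ (Module.finBasis ℝ N).equivFun.symm.toLinearMap) with hA
  have hAN : ∀ n, A n ∈ N := fun n => ((Module.finBasis ℝ N).equivFun.symm n).2
  have hAinj : ∀ n, A n = 0 → n = 0 := by
    intro n hn
    have h1 : (Module.finBasis ℝ N).equivFun.symm n = 0 := Subtype.ext hn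
    exact (LinearEquiv.map_eq_zero_iff _).1 h1
  set Θ : H × (Fin e → ℝ) → H' := fun p => Ψ p.1 + A p.2 with hΘ
  have hΘs : ContDiffOn ℝ ∞ Θ (O ×ˢ Set.univ) := by
    refine ContDiffOn.add (hΨ.comp contDiff_fst.contDiffOn fun p hp => hp.1) ?_
    exact (A.contDiff.comp contDiff_snd).contDiffOn
  have hdiff : DifferentiableAt ℝ Ψ x := (hΨ.contDiffAt (hO.mem_nhds hx)).differentiableAt (by simp)
  have hfd : HasFDerivAt Θ (L.comp (ContinuousLinearMap.fst ℝ H (Fin e → ℝ)) +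
      A.comp (ContinuousLinearMap.snd ℝ H (Fin e → ℝ))) (x, 0) := by
    refine HasFDerivAt.add ?_ ?_
    · exact HasFDerivAt.comp (x, (0 : Fin e → ℝ)) (g := Ψ) hdiff.hasFDerivAt hasFDerivAt_fst
    · exact (A.comp (ContinuousLinearMap.snd ℝ H (Fin e → ℝ))).hasFDerivAt
  have hΘinj : ∀ v, fderiv ℝ Θ (x, 0) v = 0 → v = 0 := by
    rintro ⟨v, n⟩ hv
    rw [hfd.fderiv] at hv
    have hv' : L v + A n = 0 := hv
    have h1 : A n ∈ LinearMap.range (L : H →ₗ[ℝ] H') := by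
      refine ⟨-v, ?_⟩
      have : L (-v) = A n := by
        rw [map_neg]
        exact neg_eq_of_add_eq_zero_right hv'
      exact this
    have h2 : A n = 0 := by
      have := hN.disjoint.le_bot (show A n ∈ LinearMap.range (L : H →ₗ[ℝ] H') ⊓ N from ⟨h1, hAN n⟩)
      simpa using this
    rw [h2, add_zero] at hv'
    rw [hinj v hv', hAinj n h2]
    rfl
  obtain ⟨φ, hcoe, hsub, hmem, hsmooth, hsurj⟩ := ift_smooth Θ (O ×ˢ Set.univ) (hO.prod isOpen_univ) (x, 0)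
    ⟨hx, Set.mem_univ _⟩ hΘs hΘinj (by rw [Module.finrank_prod]; simp; omega)
  have hval : Θ (x, 0) = Ψ x := by simp [hΘ]
  rw [hval] at hsurj
  have htgt : Ψ x ∈ φ.target := by
    rw [← hval, ← hcoe]
    exact φ.map_source hmem
  have hdsymm : DifferentiableAt ℝ φ.symm (Ψ x) :=
    (hsmooth.contDiffAt (φ.open_target.mem_nhds htgt)).differentiableAt (by simp)
  refine ⟨e, {z | (z, (0 : Fin e → ℝ)) ∈ φ.source}, φ.target, fun y => (φ.symm y).1, fun y => (φ.symm y).2,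
    hsum, φ.open_source.preimage (by fun_prop), hmem, fun z hz => (hsub hz).1, φ.open_target, htgt,
    contDiff_fst.comp_contDiffOn hsmooth, contDiff_snd.comp_contDiffOn hsmooth, ?_, ?_, ?_, ?_⟩
  · intro z hz hz'
    have h1 : Ψ z = φ (z, 0) := by rw [hcoe]; simp [hΘ]
    have h2 : φ.symm (Ψ z) = (z, 0) := by rw [h1]; exact φ.left_inv hz
    simp only [h2, and_self]
  · intro y hy
    exact (hsub (φ.map_target hy)).1
  · intro y hy h0
    have h1 : φ (φ.symm y) = y := φ.right_inv hy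
    rw [hcoe] at h1
    simp only [hΘ] at h1
    have h0' : (φ.symm y).2 = 0 := h0
    rw [h0', map_zero, add_zero] at h1
    exact h1
  · intro v w
    obtain ⟨u, hu⟩ := hsurj (v, w)
    refine ⟨u, ?_, ?_⟩
    · have h1 : HasFDerivAt (fun y => (φ.symm y).1) ((ContinuousLinearMap.fst ℝ H (Fin e → ℝ)).comp
        (fderiv ℝ φ.symm (Ψ x))) (Ψ x) := hdsymm.hasFDerivAt.fst
      rw [h1.fderiv]
      show (fderiv ℝ φ.symm (Ψ x) u).1 = v
      rw [hu]
    · have h1 : HasFDerivAt (fun y => (φ.symm y).2) ((ContinuousLinearMap.snd ℝ H (Fin e → ℝ)).comp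
        (fderiv ℝ φ.symm (Ψ x))) (Ψ x) := hdsymm.hasFDerivAt.snd
      rw [h1.fderiv]
      show (fderiv ℝ φ.symm (Ψ x) u).2 = w
      rw [hu]

end Pool.Agent.Helper93.BPF
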