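import Pool.Agent.Helper93.BPF.Defs

/-!
BPF: the map `Psi`: smoothness, invariance, separation of orbits.
-/

set_option autoImplicit false

namespace Pool.Agent.Helper93.BPF

open scoped ContDiff

variable {G : Type} [Group G] [Fintype G] {H : Type} [NormedAddCommGroup H] [NormedSpace ℝ H]
  [FiniteDimensional ℝ H]

/-- An affine function given by its coefficients. -/
noncomputable def aff (c : Option (Fin (Module.finrank ℝ H)) → ℝ) (x : H) : ℝ := ∑ o, c o * co x o

theorem exists_aff (l : H →ₗ[ℝ] ℝ) (b : ℝ) : ∃ c : Option (Fin (Module.finrank ℝ H)) → ℝ,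
    ∀ x, aff c x = l x + b := by
  refine ⟨fun o => o.elim b (fun i => l (Module.finBasis ℝ H i)), fun x => ?_⟩
  rw [aff, Fintype.sum_option]
  simp only [Option.elim, co, mul_one]
  rw [add_comm]
  congr 1
  conv_rhs => rw [← (Module.finBasis ℝ H).sum_repr x]
  rw [map_sum]
  refine Finset.sum_congr rfl fun i _ => ?_
  rw [map_smul, smul_eq_mul, mul_comm]

theorem prod_aff (ρ : G →* (H →L[ℝ] H)) (c : Jx G → Option (Fin (Module.finrank ℝ H)) → ℝ) (x : H) :
    ∑ g, ∏ j, aff (c j) (ρ g x) = ∑ w : Wx G H, (∏ j, c j (w j)) * Psi ρ x w := by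
  classical
  have h1 : ∀ g, ∏ j, aff (c j) (ρ g x) = ∑ w : Wx G H, ∏ j, (c j (w j) * co (ρ g x) (w j)) := by
    intro g
    unfold aff
    rw [Finset.prod_univ_sum]
    refine Finset.sum_bij' (fun w _ => w) (fun w _ => w) ?_ ?_ ?_ ?_ ?_
    · intro w _; exact Finset.mem_univ _
    · intro w _; exact Fintype.mem_piFinset.2 fun _ => Finset.mem_univ _
    · intro w _; rfl
    · intro w _; rfl
    · intro w _; rfl
  simp only [h1]
  rw [Finset.sum_comm]
  refine Finset.sum_congr rfl fun w _ => ?_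
  unfold Psi
  rw [Finset.mul_sum]
  refine Finset.sum_congr rfl fun g _ => ?_
  rw [Finset.prod_mul_distrib]

/-- The form in which we use it. -/
theorem exists_coef (l : Jx G → (H →ₗ[ℝ] ℝ)) (b : Jx G → ℝ) : ∃ C : Wx G H → ℝ,
    ∀ (ρ : G →* (H →L[ℝ] H)) (x : H), ∑ g, ∏ j, (l j (ρ g x) + b j) = ∑ w, C w * Psi ρ x w := by
  choose c hc using fun j => exists_aff (l j) (b j)
  refine ⟨fun w => ∏ j, c j (w j), fun ρ x => ?_⟩
  rw [← prod_aff]
  simp only [hc]

theorem psi_inv (ρ : G →* (H →L[ℝ] H)) (g : G) (x : H) : Psi ρ (ρ g x) = Psi ρ x := by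
  funext w
  unfold Psi
  refine Fintype.sum_equiv (Equiv.mulRight g) _ _ fun g' => ?_
  simp [map_mul]

theorem exists_nz {v : H} (h : v ≠ 0) : ∃ l : H →ₗ[ℝ] ℝ, l v ≠ 0 := by
  by_contra hcon
  simp only [not_exists, not_not] at hcon
  exact h ((Module.forall_dual_apply_eq_zero_iff ℝ v).1 hcon)

theorem exists_sep {x y : H} (h : x ≠ y) : ∃ (l : H →ₗ[ℝ] ℝ) (b : ℝ), l y + b = 0 ∧ l x + b ≠ 0 := by
  obtain ⟨f, hf⟩ := exists_nz (sub_ne_zero.2 h)
  refine ⟨f, -f y, by ring, ?_⟩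
  rw [map_sub] at hf
  intro h0
  apply hf
  linarith

theorem psi_sep (ρ : G →* (H →L[ℝ] H)) {x y : H} (h : Psi ρ x = Psi ρ y) : ∃ g, y = ρ g x := by
  classical
  by_contra hcon
  simp only [not_exists] at hcon
  have hy : ∀ g, x ≠ ρ g y := by
    intro g hg
    apply hcon g⁻¹
    rw [hg, ← mul_apply_eq_comp, ← map_mul, inv_mul_cancel, map_one]
    rfl
  choose l' b' hl' hb' using fun g => exists_sep (hy g)
  have hx : ∀ g, ∃ (l : H →ₗ[ℝ] ℝ) (b : ℝ), (ρ g x ≠ x → l (ρ g x) + b = 0) ∧ l x + b ≠ 0 := by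
    intro g
    by_cases hg : ρ g x = x
    · exact ⟨0, 1, fun h => absurd hg h, by simp⟩
    · obtain ⟨l, b, h1, h2⟩ := exists_sep (Ne.symm hg)
      exact ⟨l, b, fun _ => h1, h2⟩
  choose l b hl hb using hx
  obtain ⟨C, hC⟩ := exists_coef (G := G) (H := H)
    (fun j => Option.elim j 0 (Sum.elim l l')) (fun j => Option.elim j 1 (Sum.elim b b'))
  have e1 := hC ρ x
  have e2 := hC ρ y
  rw [← h, ← e1] at e2
  simp only [Fintype.prod_option, Option.elim, Fintype.prod_sum_type, Sum.elim_inl, Sum.elim_inr,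
    LinearMap.zero_apply, zero_add, one_mul] at e2
  have z2 : ∑ g, (∏ j, (l j (ρ g y) + b j)) * ∏ j, (l' j (ρ g y) + b' j) = 0 := by
    refine Finset.sum_eq_zero fun g _ => ?_
    have h0 : ∏ j, (l' j (ρ g y) + b' j) = 0 := Finset.prod_eq_zero (i := g) (Finset.mem_univ g) (hl' g)
    rw [h0, mul_zero]
  rw [z2] at e2
  set P : ℝ := (∏ j, (l j x + b j)) * ∏ j, (l' j x + b' j) with hP
  have hPne : P ≠ 0 := by
    refine mul_ne_zero (Finset.prod_ne_zero_iff.2 fun g _ => hb g) (Finset.prod_ne_zero_iff.2 fun g _ => ?_)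
    exact hb' g
  have z1 : ∀ g, (∏ j, (l j (ρ g x) + b j)) * ∏ j, (l' j (ρ g x) + b' j) = if ρ g x = x then P else 0 := by
    intro g
    by_cases hg : ρ g x = x
    · rw [if_pos hg, hg]
    · rw [if_neg hg, Finset.prod_eq_zero (i := g) (Finset.mem_univ g) (hl g hg), zero_mul]
  rw [Finset.sum_congr rfl fun g _ => z1 g, Finset.sum_ite, Finset.sum_const, Finset.sum_const_zero, add_zero,
    nsmul_eq_mul] at e2
  have hcard : ((Finset.univ.filter fun g => ρ g x = x).card : ℝ) ≠ 0 := by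
    rw [Nat.cast_ne_zero, Finset.card_ne_zero]
    exact ⟨1, by simp⟩
  exact (mul_ne_zero hcard hPne) e2.symm

theorem psi_smooth (ρ : G →* (H →L[ℝ] H)) : ContDiff ℝ ∞ (Psi ρ) := by
  rw [contDiff_pi]
  intro w
  unfold Psi
  refine ContDiff.sum fun g _ => ?_
  refine contDiff_prod fun j _ => ?_
  cases hj : w j with
  | none => simp only [co]; exact contDiff_const
  | some i =>
    simp only [co]
    have : ContDiff ℝ ∞ (fun x : H => (Module.finBasis ℝ H).repr x i) :=
      ((LinearMap.toContinuousLinearMap ((Module.finBasis ℝ H).coord i)).contDiff)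
    exact this.comp (ρ g).contDiff

end Pool.Agent.Helper93.BPF
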