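import Pool.Agent.Helper93.BPF.PsiA

/-!
BPF: the map `Psi` is immersive at free points, and proper (in the local form).
-/

set_option autoImplicit false

namespace Pool.Agent.Helper93.BPF

open scoped ContDiff

variable {G : Type} [Group G] [Fintype G] {H : Type} [NormedAddCommGroup H] [NormedSpace ℝ H]
  [FiniteDimensional ℝ H]

theorem psi_imm (ρ : G →* (H →L[ℝ] H)) {x : H} (hx : ∀ g, ρ g x = x → g = 1) (v : H)
    (hv : fderiv ℝ (Psi ρ) x v = 0) : v = 0 := by
  classical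
  by_contra hv0
  obtain ⟨l0, hl0⟩ := exists_nz hv0
  have hA : ∀ g : G, ∃ (l : H →ₗ[ℝ] ℝ) (b : ℝ), (g ≠ 1 → l (ρ g x) + b = 0) ∧ l x + b ≠ 0 := by
    intro g
    by_cases hg : g = 1
    · exact ⟨0, 1, fun h => absurd hg h, by simp⟩
    · obtain ⟨l, b, h1, h2⟩ := exists_sep (fun h => hg (hx g h.symm) : x ≠ ρ g x)
      exact ⟨l, b, fun _ => h1, h2⟩
  choose l b hl hb using hA
  set L : Jx G → (H →ₗ[ℝ] ℝ) := fun j => Option.elim j l0 (Sum.elim l l) with hL
  set B : Jx G → ℝ := fun j => Option.elim j (-l0 x) (Sum.elim b b) with hB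
  obtain ⟨C, hC⟩ := exists_coef (G := G) (H := H) L B
  -- derivative of the right side
  have hline : HasDerivAt (fun t : ℝ => x + t • v) v 0 := by
    simpa using (((hasDerivAt_id (0 : ℝ)).smul_const v).const_add x)
  have hPsi : HasDerivAt (fun t : ℝ => Psi ρ (x + t • v)) 0 0 := by
    have h1 : HasFDerivAt (Psi ρ) (fderiv ℝ (Psi ρ) x) (x + (0 : ℝ) • v) := by
      rw [zero_smul, add_zero]
      exact ((psi_smooth ρ).differentiable (by simp) x).hasFDerivAt
    have h2 := h1.comp_hasDerivAt (0 : ℝ) hline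
    rw [hv] at h2
    exact h2
  have hR : HasDerivAt (fun t : ℝ => ∑ w, C w * Psi ρ (x + t • v) w) 0 0 := by
    have h3 : HasDerivAt (fun t : ℝ => ∑ w, C w * Psi ρ (x + t • v) w) (∑ w, C w * (0 : Wx G H → ℝ) w) 0 := by
      refine HasDerivAt.fun_sum fun w _ => ?_
      exact ((hasDerivAt_pi.1 hPsi) w).const_mul (C w)
    simpa using h3
  -- derivative of the left side
  have hline2 : ∀ (g : G) (j : Jx G), HasDerivAt (fun t : ℝ => L j (ρ g (x + t • v)) + B j) (L j (ρ g v)) 0 := by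
    intro g j
    have h4 : (fun t : ℝ => L j (ρ g (x + t • v)) + B j) = fun t => L j (ρ g v) * t + (L j (ρ g x) + B j) := by
      funext t
      rw [map_add, map_smul, map_add, map_smul, smul_eq_mul]
      ring
    rw [h4]
    simpa using ((hasDerivAt_id (0 : ℝ)).const_mul (L j (ρ g v))).add_const (L j (ρ g x) + B j)
  have hLf : HasDerivAt (fun t : ℝ => ∑ g, ∏ j, (L j (ρ g (x + t • v)) + B j))
      (∑ g, ∑ i, (∏ j ∈ Finset.univ.erase i, (L j (ρ g x) + B j)) * L i (ρ g v)) 0 := by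
    refine HasDerivAt.fun_sum fun g _ => ?_
    have h5 := HasDerivAt.fun_finsetProd (u := Finset.univ) (fun j _ => hline2 g j)
    simpa using h5
  have heq : (fun t : ℝ => ∑ g, ∏ j, (L j (ρ g (x + t • v)) + B j)) =
      fun t : ℝ => ∑ w, C w * Psi ρ (x + t • v) w := by
    funext t
    exact hC ρ _
  rw [heq] at hLf
  have hkey := hLf.unique hR
  -- terms `g ≠ 1` vanish
  have hg1 : ∀ g : G, g ≠ 1 → ∑ i, (∏ j ∈ Finset.univ.erase i, (L j (ρ g x) + B j)) * L i (ρ g v) = 0 := by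
    intro g hg
    refine Finset.sum_eq_zero fun i _ => ?_
    have h6 : ∃ j : Jx G, j ≠ i ∧ L j (ρ g x) + B j = 0 := by
      by_cases hi : i = some (Sum.inl g)
      · refine ⟨some (Sum.inr g), ?_, ?_⟩
        · rw [hi]; simp
        · simpa [hL, hB] using hl g hg
      · refine ⟨some (Sum.inl g), fun h => hi h.symm, ?_⟩
        simpa [hL, hB] using hl g hg
    obtain ⟨j, hj1, hj2⟩ := h6
    rw [Finset.prod_eq_zero (i := j) (Finset.mem_erase.2 ⟨hj1, Finset.mem_univ _⟩) hj2, zero_mul]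
  rw [Finset.sum_eq_single (1 : G) (fun g _ hg => hg1 g hg) (fun h => absurd (Finset.mem_univ _) h)] at hkey
  simp only [map_one, one_apply_eq_self] at hkey
  rw [Finset.sum_eq_single (none : Jx G)] at hkey
  · have h7 : (∏ j ∈ Finset.univ.erase (none : Jx G), (L j x + B j)) ≠ 0 := by
      refine Finset.prod_ne_zero_iff.2 fun j hj => ?_
      rcases j with _ | (g | g)
      · simp at hj
      · simpa [hL, hB] using hb g
      · simpa [hL, hB] using hb g
    have h8 : L none v ≠ 0 := by simpa [hL] using hl0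
    exact (mul_ne_zero h7 h8) hkey
  · intro i _ hi
    rw [Finset.prod_eq_zero (i := (none : Jx G)) (Finset.mem_erase.2 ⟨Ne.symm hi, Finset.mem_univ _⟩), zero_mul]
    simp [hL, hB]
  · intro h
    exact absurd (Finset.mem_univ _) h

/-- Bound of the coordinates by `Psi`. -/
theorem exists_bound (i : Fin (Module.finrank ℝ H)) : ∃ C : ℝ, 0 ≤ C ∧ ∀ (ρ : G →* (H →L[ℝ] H)) (x : H),
    ((Module.finBasis ℝ H).repr x i) ^ 2 ≤ C * ‖Psi ρ x‖ := by
  classical
  set L : Jx G → (H →ₗ[ℝ] ℝ) := fun j => Option.elim j 0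
    (Sum.elim (fun g => if g = 1 then (Module.finBasis ℝ H).coord i else 0)
      (fun g => if g = 1 then (Module.finBasis ℝ H).coord i else 0)) with hL
  set B : Jx G → ℝ := fun j => Option.elim j 1
    (Sum.elim (fun g => if g = 1 then 0 else 1) (fun g => if g = 1 then 0 else 1)) with hB
  obtain ⟨C, hC⟩ := exists_coef (G := G) (H := H) L B
  refine ⟨∑ w, |C w|, Finset.sum_nonneg fun w _ => abs_nonneg _, fun ρ x => ?_⟩
  have h1 : ∀ y : H, ∏ j, (L j y + B j) = ((Module.finBasis ℝ H).repr y i) ^ 2 := by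
    intro y
    rw [Fintype.prod_option, Fintype.prod_sum_type]
    have h2 : ∀ s : G, (if s = 1 then (Module.finBasis ℝ H).coord i else 0 : H →ₗ[ℝ] ℝ) y + (if s = 1 then 0 else 1)
        = if s = 1 then (Module.finBasis ℝ H).repr y i else 1 := by
      intro s
      by_cases hs : s = 1
      · simp [hs]
      · simp [hs]
    simp only [hL, hB, Option.elim, Sum.elim_inl, Sum.elim_inr, h2, LinearMap.zero_apply, zero_add, one_mul,
      Finset.prod_ite_eq', Finset.mem_univ, if_true]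
    rw [sq]
  have h3 := hC ρ x
  simp only [h1] at h3
  have h4 : ((Module.finBasis ℝ H).repr x i) ^ 2 ≤ ∑ g, ((Module.finBasis ℝ H).repr (ρ g x) i) ^ 2 := by
    have := Finset.single_le_sum (f := fun g => ((Module.finBasis ℝ H).repr (ρ g x) i) ^ 2)
      (fun g _ => sq_nonneg _) (Finset.mem_univ (1 : G))
    simpa using this
  rw [h3] at h4
  refine h4.trans ?_
  rw [Finset.sum_mul]
  refine Finset.sum_le_sum fun w _ => ?_
  refine (le_abs_self _).trans ?_
  rw [abs_mul]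
  exact mul_le_mul_of_nonneg_left (norm_le_pi_norm (Psi ρ x) w) (abs_nonneg _)

theorem psi_bounded (ρ : G →* (H →L[ℝ] H)) (R : ℝ) : Bornology.IsBounded {x : H | ‖Psi ρ x‖ ≤ R} := by
  choose C hC0 hC using fun i => exists_bound (G := G) (H := H) i
  rw [isBounded_iff_forall_norm_le]
  refine ⟨∑ i, (C i * |R| + 1) * ‖Module.finBasis ℝ H i‖, fun x hx => ?_⟩
  conv_lhs => rw [← (Module.finBasis ℝ H).sum_repr x]
  refine (norm_sum_le _ _).trans (Finset.sum_le_sum fun i _ => ?_)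
  rw [norm_smul]
  refine mul_le_mul_of_nonneg_right ?_ (norm_nonneg _)
  have h1 := hC i ρ x
  have h2 : C i * ‖Psi ρ x‖ ≤ C i * |R| :=
    mul_le_mul_of_nonneg_left (le_trans hx (le_abs_self R)) (hC0 i)
  rw [Real.norm_eq_abs]
  have h3 := abs_nonneg ((Module.finBasis ℝ H).repr x i)
  have h4 := sq_abs ((Module.finBasis ℝ H).repr x i)
  nlinarith [sq_nonneg (|(Module.finBasis ℝ H).repr x i| - 1)]

theorem psi_loc (ρ : G →* (H →L[ℝ] H)) (x : H) (U : Set H) (hU : IsOpen U) (hx : ∀ g, ρ g x ∈ U) :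
    ∃ O : Set (Wx G H → ℝ), IsOpen O ∧ Psi ρ x ∈ O ∧ ∀ y, Psi ρ y ∈ O → y ∈ U := by
  have hcont : Continuous (fun y : H => ‖Psi ρ y - Psi ρ x‖) :=
    ((psi_smooth ρ).continuous.sub continuous_const).norm
  set K : Set H := {y | ‖Psi ρ y - Psi ρ x‖ ≤ 1} ∩ Uᶜ with hK
  have hKc : IsCompact K := by
    refine Metric.isCompact_of_isClosed_isBounded ?_ ?_
    · exact (isClosed_le hcont continuous_const).inter hU.isClosed_compl
    · refine (psi_bounded ρ (1 + ‖Psi ρ x‖)).subset ?_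
      rintro y ⟨hy, -⟩
      have : ‖Psi ρ y‖ ≤ ‖Psi ρ y - Psi ρ x‖ + ‖Psi ρ x‖ := by
        simpa using norm_add_le (Psi ρ y - Psi ρ x) (Psi ρ x)
      have hy' : ‖Psi ρ y - Psi ρ x‖ ≤ 1 := hy
      show ‖Psi ρ y‖ ≤ 1 + ‖Psi ρ x‖
      linarith
  rcases K.eq_empty_or_nonempty with hE | hne
  · refine ⟨{z | ‖z - Psi ρ x‖ < 1}, isOpen_lt (by fun_prop) continuous_const, by simp, fun y hy => ?_⟩
    by_contra hyU
    have hy1 : ‖Psi ρ y - Psi ρ x‖ < 1 := hy
    have : y ∈ K := ⟨hy1.le, hyU⟩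
    rw [hE] at this
    exact this
  · obtain ⟨y0, hy0, hmin⟩ := hKc.exists_isMinOn hne hcont.continuousOn
    have hpos : 0 < ‖Psi ρ y0 - Psi ρ x‖ := by
      rw [norm_pos_iff, sub_ne_zero]
      intro h
      obtain ⟨g, hg⟩ := psi_sep ρ h.symm
      exact hy0.2 (hg ▸ hx g)
    refine ⟨{z | ‖z - Psi ρ x‖ < min 1 ‖Psi ρ y0 - Psi ρ x‖}, isOpen_lt (by fun_prop) continuous_const,
      by simp [hpos], fun y hy => ?_⟩
    by_contra hyU
    have hy' : ‖Psi ρ y - Psi ρ x‖ < min 1 ‖Psi ρ y0 - Psi ρ x‖ := hy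
    have h1 : y ∈ K := ⟨(hy'.trans_le (min_le_left _ _)).le, hyU⟩
    have h2 := hmin h1
    have h3 := hy'.trans_le (min_le_right _ _)
    exact absurd h3 (not_lt.2 h2)

end Pool.Agent.Helper93.BPF
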