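import Pool.Agent.Helper93.BPF.QM

/-!
BPF: descent of invariant maps and the singular manifold `Q`.
-/

set_option autoImplicit false

namespace Pool.Agent.Helper93.BPF

open Pool.Agent.Helper79.BP
open scoped ContDiff

variable {G : Type} [Group G] [Fintype G] {H : Type} [NormedAddCommGroup H] [NormedSpace ℝ H]
  [FiniteDimensional ℝ H] {ι : Type} {V : Set (ι → ℝ)} {m : ℕ}

theorem desc_psi (ρ : G →* (H →L[ℝ] H)) (X : Set H) (f : H → (ι → ℝ)) (hX : Stab ρ X)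
    (hf : ∀ g, ∀ x ∈ X, f (ρ g x) = f x) (x : H) (hx : x ∈ X) : desc ρ X f (Psi ρ x) = f x := by
  have h : ∃ x', x' ∈ X ∧ Psi ρ x' = Psi ρ x := ⟨x, hx, rfl⟩
  unfold desc
  rw [dif_pos h]
  obtain ⟨h1, h2⟩ := h.choose_spec
  obtain ⟨g, hg⟩ := psi_sep ρ h2.symm
  rw [hg]
  exact hf g x hx

/-- Continuity of a function on the image, from continuity upstairs. -/
theorem cont_image {H' E : Type*} [NormedAddCommGroup H'] [NormedSpace ℝ H'] [FiniteDimensional ℝ H']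
    [TopologicalSpace E] {ρ : G →* (H →L[ℝ] H)} {Ψ : H → H'} (hQ : QM ρ Ψ) {X : Set H}
    (hst : ∀ g, ∀ x ∈ X, ρ g x ∈ X)
    (hfr : ∀ g, ∀ x ∈ X, ρ g x = x → g = 1) (f : H → E) (hf : ContinuousOn f X) (F : H' → E)
    (hF : ∀ x ∈ X, F (Ψ x) = f x) : ContinuousOn F (Ψ '' X) := by
  rintro _ ⟨x, hx, rfl⟩
  obtain ⟨e, O', α, β, h1, h2, h3, h4, h5, h6, h7, h8, -⟩ := hQ.exists_section (fun g => hfr g x hx)
  have hmaps : ∀ y ∈ Ψ '' X ∩ O', α y ∈ X ∧ F y = f (α y) := by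
    rintro _ ⟨⟨z, hz, rfl⟩, hy⟩
    obtain ⟨h9, g, hg⟩ := h7 z hy
    have h10 : α (Ψ z) ∈ X := by rw [hg]; exact hst g z hz
    refine ⟨h10, ?_⟩
    rw [← hF _ h10, h8 _ hy h9]
  have hcont : ContinuousWithinAt (fun y => f (α y)) (Ψ '' X ∩ O') (Ψ x) := by
    have hα : ContinuousWithinAt α (Ψ '' X ∩ O') (Ψ x) :=
      (h4.continuousOn (Ψ x) h3).mono Set.inter_subset_right
    have hfx : ContinuousWithinAt f X (α (Ψ x)) := by rw [h6]; exact hf x hx
    exact hfx.comp hα fun y hy => (hmaps y hy).1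
  have hcont2 : ContinuousWithinAt F (Ψ '' X ∩ O') (Ψ x) := by
    refine hcont.congr (fun y hy => (hmaps y hy).2) ?_
    exact (hmaps (Ψ x) ⟨⟨x, hx, rfl⟩, h3⟩).2
  exact (continuousWithinAt_inter (h2.mem_nhds h3)).1 hcont2

theorem q_compact {ρ : G →* (H →L[ℝ] H)} {X : Set H} {f : H → (ι → ℝ)} (h : UpData ρ V m X f) :
    IsCompact (Psi ρ '' X) := h.compact.image (psi_smooth ρ).continuous

theorem q_submfd {ρ : G →* (H →L[ℝ] H)} {X : Set H} {f : H → (ι → ℝ)} (h : UpData ρ V m X f) :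
    IsSubmfd m (Psi ρ '' X) := isSubmfd_iff.2 ((qm_psi ρ).subE_image h.sub h.stab h.free)

theorem q_cont {ρ : G →* (H →L[ℝ] H)} {X : Set H} {f : H → (ι → ℝ)} (h : UpData ρ V m X f) :
    ContinuousOn (desc ρ X f) (Psi ρ '' X) :=
  cont_image (qm_psi ρ) h.stab h.free f h.cont _ fun x hx => desc_psi ρ X f h.stab h.inv x hx

theorem q_maps {ρ : G →* (H →L[ℝ] H)} {X : Set H} {f : H → (ι → ℝ)} (h : UpData ρ V m X f) :
    Set.MapsTo (desc ρ X f) (Psi ρ '' X) V := by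
  rintro _ ⟨x, hx, rfl⟩
  rw [desc_psi ρ X f h.stab h.inv x hx]
  exact h.maps hx

/-- The singular manifold `X / G → V`. -/
noncomputable def Q {ρ : G →* (H →L[ℝ] H)} {X : Set H} {f : H → (ι → ℝ)} (h : UpData ρ V m X f) : Sing V m where
  κ := Wx G H
  fin := inferInstance
  X := Psi ρ '' X
  f := desc ρ X f
  compact := q_compact h
  submfd := q_submfd h
  cont := q_cont h
  maps := q_maps h

end Pool.Agent.Helper93.BPF
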