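import Pool.Agent.Helper93.BPF.PsiB
import Pool.Agent.Helper93.BPF.Ift

/-!
BPF: quotient maps (`QM`), their local sections, and images of submanifolds.
-/

set_option autoImplicit false

namespace Pool.Agent.Helper93.BPF

open Pool.Agent.Helper79.BP
open scoped ContDiff

/-- A smooth map which realises the quotient by `G` on the free part. -/
structure QM {G : Type} [Group G] {H H' : Type*} [NormedAddCommGroup H] [NormedSpace ℝ H]
    [NormedAddCommGroup H'] [NormedSpace ℝ H'] (ρ : G →* (H →L[ℝ] H)) (Ψ : H → H') : Prop where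
  smooth : ContDiff ℝ ∞ Ψ
  inv : ∀ g x, Ψ (ρ g x) = Ψ x
  imm : ∀ x, (∀ g, ρ g x = x → g = 1) → ∀ v, fderiv ℝ Ψ x v = 0 → v = 0
  loc : ∀ x, ∀ U : Set H, IsOpen U → (∀ g, ρ g x ∈ U) → ∃ O : Set H', IsOpen O ∧ Ψ x ∈ O ∧ ∀ y, Ψ y ∈ O → y ∈ U

theorem qm_psi {G : Type} [Group G] [Fintype G] {H : Type} [NormedAddCommGroup H] [NormedSpace ℝ H]
    [FiniteDimensional ℝ H] (ρ : G →* (H →L[ℝ] H)) : QM ρ (Psi ρ) :=
  ⟨psi_smooth ρ, psi_inv ρ, fun _ hx v hv => psi_imm ρ hx v hv, psi_loc ρ⟩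

section

variable {G : Type} [Group G] {H H' : Type*} [NormedAddCommGroup H] [NormedSpace ℝ H] [FiniteDimensional ℝ H]
  [NormedAddCommGroup H'] [NormedSpace ℝ H'] [FiniteDimensional ℝ H'] {ρ : G →* (H →L[ℝ] H)} {Ψ : H → H'}

omit [FiniteDimensional ℝ H] [FiniteDimensional ℝ H'] in
theorem rho_inv (ρ : G →* (H →L[ℝ] H)) (g : G) (x : H) : ρ g⁻¹ (ρ g x) = x := by
  rw [← mul_apply_eq_comp, ← map_mul, inv_mul_cancel, map_one]
  rfl

omit [FiniteDimensional ℝ H] [FiniteDimensional ℝ H'] in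
theorem QM.sep (h : QM ρ Ψ) {x y : H} (hxy : Ψ x = Ψ y) : ∃ g, y = ρ g x := by
  by_contra hcon
  simp only [not_exists] at hcon
  obtain ⟨O, -, hxO, hO⟩ := h.loc x {y}ᶜ isOpen_compl_singleton (fun g => by simpa using Ne.symm (hcon g))
  exact hO y (hxy ▸ hxO) rfl

theorem QM.exists_section (h : QM ρ Ψ) {x : H} (hx : ∀ g, ρ g x = x → g = 1) :
    ∃ (e : ℕ) (O' : Set H') (α : H' → H) (β : H' → (Fin e → ℝ)),
      e + Module.finrank ℝ H = Module.finrank ℝ H' ∧ IsOpen O' ∧ Ψ x ∈ O' ∧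
      ContDiffOn ℝ ∞ α O' ∧ ContDiffOn ℝ ∞ β O' ∧ α (Ψ x) = x ∧
      (∀ z, Ψ z ∈ O' → β (Ψ z) = 0 ∧ ∃ g, α (Ψ z) = ρ g z) ∧
      (∀ y ∈ O', β y = 0 → Ψ (α y) = y) ∧
      ∀ (v : H) (w : Fin e → ℝ), ∃ u : H', fderiv ℝ α (Ψ x) u = v ∧ fderiv ℝ β (Ψ x) u = w := by
  obtain ⟨e, U, O', α, β, h1, h2, h3, -, h5, h6, h7, h8, h9, -, h11, h12⟩ :=
    immersion_local Ψ Set.univ isOpen_univ x (Set.mem_univ _) h.smooth.contDiffOn (h.imm x hx)
  obtain ⟨O, hO, hxO, hOU⟩ := h.loc x (⋃ g, (ρ g) ⁻¹' U) (isOpen_iUnion fun g => h2.preimage (ρ g).continuous)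
    (fun g => Set.mem_iUnion.2 ⟨g⁻¹, by
      show ρ g⁻¹ (ρ g x) ∈ U
      rw [rho_inv]
      exact h3⟩)
  refine ⟨e, O' ∩ O, α, β, h1, h5.inter hO, ⟨h6, hxO⟩, h7.mono Set.inter_subset_left,
    h8.mono Set.inter_subset_left, (h9 x h3 h6).1, ?_, fun y hy => h11 y hy.1, h12⟩
  intro z hz
  obtain ⟨g, hg⟩ := Set.mem_iUnion.1 (hOU z hz.2)
  have hg' : ρ g z ∈ U := hg
  have h13 := h9 (ρ g z) hg' (by rw [h.inv]; exact hz.1)
  rw [h.inv] at h13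
  exact ⟨h13.2, g, h13.1⟩

omit [FiniteDimensional ℝ H] in
/-- A submanifold given by local equations with values in any finite dimensional space. -/
theorem subE_mk {m : ℕ} {M : Set H} (h : ∀ x ∈ M, ∃ (c e : ℕ) (g : H → (Fin c → ℝ) × (Fin e → ℝ)) (U : Set H),
    c + e + m = Module.finrank ℝ H ∧ IsOpen U ∧ x ∈ U ∧ ContDiffOn ℝ ∞ g U ∧ (∀ y ∈ U, y ∈ M ↔ g y = 0) ∧
    Function.Surjective (fderiv ℝ g x)) : SubE m M := by
  intro x hx
  obtain ⟨c, e, g, U, h1, h2, h3, h4, h5, h6⟩ := h x hx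
  have hfr : Module.finrank ℝ ((Fin c → ℝ) × (Fin e → ℝ)) = Module.finrank ℝ (Fin (c + e) → ℝ) := by
    simp [Module.finrank_prod]
  set A : ((Fin c → ℝ) × (Fin e → ℝ)) ≃L[ℝ] (Fin (c + e) → ℝ) :=
    (LinearEquiv.ofFinrankEq _ _ hfr).toContinuousLinearEquiv with hA
  refine ⟨c + e, fun y => A (g y), U, h1, h2, h3, A.contDiff.comp_contDiffOn h4, fun y hy => ?_, ?_⟩
  · rw [h5 y hy]
    exact (map_eq_zero_iff A A.injective).symm
  · have h7 : DifferentiableAt ℝ g x := (h4.contDiffAt (h2.mem_nhds h3)).differentiableAt (by simp)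
    have h8 : HasFDerivAt (fun y => A (g y)) ((A : ((Fin c → ℝ) × (Fin e → ℝ)) →L[ℝ] (Fin (c + e) → ℝ)).comp
      (fderiv ℝ g x)) x := (A.hasFDerivAt.comp x h7.hasFDerivAt)
    rw [h8.fderiv]
    exact A.surjective.comp h6

theorem QM.subE_image (h : QM ρ Ψ) {m : ℕ} {M : Set H} (hM : SubE m M) (hst : ∀ g, ∀ x ∈ M, ρ g x ∈ M)
    (hfr : ∀ g, ∀ x ∈ M, ρ g x = x → g = 1) : SubE m (Ψ '' M) := by
  refine subE_mk ?_
  rintro _ ⟨x, hxM, rfl⟩
  obtain ⟨c, g, U, hc, hU, hxU, hg, hMU, hsurj⟩ := hM x hxM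
  obtain ⟨e, O', α, β, h1, h2, h3, h4, h5, h6, h7, h8, h9⟩ := h.exists_section (fun g => hfr g x hxM)
  have hO'' : IsOpen (O' ∩ α ⁻¹' U) := h4.continuousOn.isOpen_inter_preimage h2 hU
  have hsm : ContDiffOn ℝ ∞ (fun y => (g (α y), β y)) (O' ∩ α ⁻¹' U) := by
    refine ContDiffOn.prodMk ?_ (h5.mono Set.inter_subset_left)
    exact hg.comp (h4.mono Set.inter_subset_left) fun y hy => hy.2
  refine ⟨c, e, fun y => (g (α y), β y), O' ∩ α ⁻¹' U, by omega, hO'', ⟨h3, ?_⟩, hsm, ?_, ?_⟩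
  · show α (Ψ x) ∈ U
    rw [h6]
    exact hxU
  · intro y hy
    constructor
    · rintro ⟨z, hz, rfl⟩
      obtain ⟨h10, g', hg'⟩ := h7 z hy.1
      have h11 : α (Ψ z) ∈ M := by rw [hg']; exact hst g' z hz
      have h12 := (hMU _ hy.2).1 h11
      exact Prod.ext h12 h10
    · intro h0
      have h10 : g (α y) = 0 := congrArg Prod.fst h0
      have h11 : β y = 0 := congrArg Prod.snd h0
      exact ⟨α y, (hMU _ hy.2).2 h10, h8 y hy.1 h11⟩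
  · intro p
    obtain ⟨v, hv⟩ := hsurj p.1
    obtain ⟨u, hu1, hu2⟩ := h9 v p.2
    refine ⟨u, ?_⟩
    have hα : HasFDerivAt α (fderiv ℝ α (Ψ x)) (Ψ x) :=
      ((h4.contDiffAt (h2.mem_nhds h3)).differentiableAt (by simp)).hasFDerivAt
    have hβ : HasFDerivAt β (fderiv ℝ β (Ψ x)) (Ψ x) :=
      ((h5.contDiffAt (h2.mem_nhds h3)).differentiableAt (by simp)).hasFDerivAt
    have hgd : HasFDerivAt g (fderiv ℝ g x) (α (Ψ x)) := by
      rw [h6]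
      exact ((hg.contDiffAt (hU.mem_nhds hxU)).differentiableAt (by simp)).hasFDerivAt
    have hd : HasFDerivAt (fun y => (g (α y), β y))
        (((fderiv ℝ g x).comp (fderiv ℝ α (Ψ x))).prod (fderiv ℝ β (Ψ x))) (Ψ x) :=
      (hgd.comp (Ψ x) hα).prodMk hβ
    rw [hd.fderiv]
    show (fderiv ℝ g x (fderiv ℝ α (Ψ x) u), fderiv ℝ β (Ψ x) u) = p
    rw [hu1, hu2, hv]

end

/-- In `ℝ^κ` the two notions of submanifold agree. -/
theorem isSubmfd_iff {κ : Type} [Fintype κ] {m : ℕ} {M : Set (κ → ℝ)} : IsSubmfd m M ↔ SubE m M := by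
  unfold IsSubmfd SubE
  simp only [Module.finrank_fintype_fun_eq_card]

end Pool.Agent.Helper93.BPF
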